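import Mathlib
import Pool.Agent.Helper444.CKGame

set_option autoImplicit false

namespace Pool.Agent.Results.MP_7c40ec_lc.UnboundedCofC

/-- `W` is an optimal plain machine. -/
def OptimalPlain (W : List Bool →. List Bool) : Prop :=
  Partrec W ∧ ∀ M : List Bool →. List Bool, Partrec M →
    ∃ c : ℕ, ∀ x p : List Bool, x ∈ M p → ∃ q : List Bool, x ∈ W q ∧ q.length ≤ p.length + c

/-- No program of `V` properly extends another one. -/
def SelfDelimiting (V : List Bool →. List Bool) : Prop :=
  ∀ p q : List Bool, (V p).Dom → (V q).Dom → p <+: q → p = q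

/-- `V` is an optimal machine among the self-delimiting ones. -/
def OptimalSelfDelimiting (V : List Bool →. List Bool) : Prop :=
  Partrec V ∧ SelfDelimiting V ∧ ∀ M : List Bool →. List Bool, Partrec M → SelfDelimiting M →
    ∃ c : ℕ, ∀ x p : List Bool, x ∈ M p → ∃ q : List Bool, x ∈ V q ∧ q.length ≤ p.length + c

/-- `U` is an optimal conditional plain machine: `U p y` is the output on program `p` under the
condition `y`, a pair of a string and a natural number; outputs are natural numbers. -/
def OptimalConditional (U : List Bool → List Bool × ℕ →. ℕ) : Prop :=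
  Partrec₂ U ∧ ∀ M : List Bool → List Bool × ℕ →. ℕ, Partrec₂ M →
    ∃ c : ℕ, ∀ (p : List Bool) (y : List Bool × ℕ) (z : ℕ), z ∈ M p y →
      ∃ q : List Bool, z ∈ U q y ∧ q.length ≤ p.length + c

/-- Length of a shortest program of `x`. -/
noncomputable def complexity (W : List Bool →. List Bool) (x : List Bool) : ℕ :=
  sInf (List.length '' {p : List Bool | x ∈ W p})

/-- Length of a shortest program of `z` under the condition `y`. -/
noncomputable def condComplexity (U : List Bool → List Bool × ℕ →. ℕ) (z : ℕ)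
    (y : List Bool × ℕ) : ℕ :=
  sInf (List.length '' {p : List Bool | z ∈ U p y})

open Pool.Agent.Helper444 in
/-- The plain complexity of `C(x)` given `x` and `K(x)` is unbounded. -/
theorem result (W V : List Bool →. List Bool) (U : List Bool → List Bool × ℕ →. ℕ)
    (hW : OptimalPlain W) (hV : OptimalSelfDelimiting V) (hU : OptimalConditional U) :
    ∀ c : ℕ, ∃ x : List Bool,
      c < condComplexity U (complexity W x) (x, complexity V x) := by
  classical
  intro c
  obtain ⟨hU1, hU2⟩ := hU
  have hU1' : Partrec (fun a : List Bool × (List Bool × ℕ) => U a.1 a.2) := hU1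
  obtain ⟨E, hE, hE1, hE2⟩ := CKGame.exists_enum hU1'
  obtain ⟨L, hL⟩ : ∃ L : List (List Bool), ∀ p, p ∈ L ↔ p.length ≤ c := by
    have hfin : {p : List Bool | p.length ≤ c}.Finite := List.finite_length_le Bool c
    exact ⟨hfin.toFinset.toList, fun p => by simp⟩
  have hR : PrimrecRel (fun (p : List Bool) (st : ℕ × ((List Bool × ℕ) × ℕ)) =>
      E st.1 (p, st.2.1) = some st.2.2) := by
    have p : Primrec (fun a : List Bool × (ℕ × ((List Bool × ℕ) × ℕ)) => a.1) := Primrec.fst
    have s : Primrec (fun a : List Bool × (ℕ × ((List Bool × ℕ) × ℕ)) => a.2.1) :=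
      Primrec.fst.comp Primrec.snd
    have t1 : Primrec (fun a : List Bool × (ℕ × ((List Bool × ℕ) × ℕ)) => a.2.2.1) :=
      Primrec.fst.comp (Primrec.snd.comp Primrec.snd)
    have t2 : Primrec (fun a : List Bool × (ℕ × ((List Bool × ℕ) × ℕ)) => a.2.2.2) :=
      Primrec.snd.comp (Primrec.snd.comp Primrec.snd)
    exact Primrec.eq.comp (hE.comp s (Primrec.pair p t1)) (Primrec.option_some.comp t2)
  have hR2 : PrimrecPred (fun st : ℕ × ((List Bool × ℕ) × ℕ) =>
      ∃ p ∈ L, E st.1 (p, st.2.1) = some st.2.2) :=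
    hR.exists_mem_list.comp (f := fun _ : ℕ × ((List Bool × ℕ) × ℕ) => L)
      (g := fun st : ℕ × ((List Bool × ℕ) × ℕ) => st) (Primrec.const L) Primrec.id
  have hEP : Primrec₂ (fun (s : ℕ) (t : (List Bool × ℕ) × ℕ) =>
      decide (∃ p ∈ L, E s (p, t.1) = some t.2)) := hR2.decide
  obtain ⟨x, hx⟩ := CKGame.main_theorem W V
    (fun t => ∃ p : List Bool, p.length ≤ c ∧ t.2 ∈ U p t.1) hW.1 hW.2 hV.1 hV.2.1 hV.2.2
    (fun s t => decide (∃ p ∈ L, E s (p, t.1) = some t.2)) hEP
    (by
      intro t
      constructor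
      · rintro ⟨p, hp, hz⟩
        obtain ⟨s, hs⟩ := (hE1 (p, t.1) t.2).1 hz
        exact ⟨s, decide_eq_true ⟨p, (hL p).2 hp, hs⟩⟩
      · rintro ⟨s, hs⟩
        obtain ⟨p, hp, hz⟩ := of_decide_eq_true hs
        exact ⟨p, (hL p).1 hp, (hE1 (p, t.1) t.2).2 ⟨s, hz⟩⟩)
    (by
      intro s s' t hss hs
      obtain ⟨p, hp, hz⟩ := of_decide_eq_true hs
      exact decide_eq_true ⟨p, hp, hE2 _ _ _ _ hss hz⟩)
    (2 ^ (c + 1))
    (by
      intro x k F hF
      choose! P hP1 hP2 using hF
      have hinj : Set.InjOn P (F : Set ℕ) := by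
        intro y hy y' hy' h
        have a1 := hP2 y hy
        have a2 := hP2 y' hy'
        rw [h] at a1
        exact Part.mem_unique a1 a2
      rw [← Finset.card_image_of_injOn hinj]
      exact (CKGame.card_short (F.image P) c (by
        intro p hp
        obtain ⟨y, hy, rfl⟩ := Finset.mem_image.mp hp
        exact hP1 y hy)).le)
  refine ⟨x, ?_⟩
  by_contra hcon
  rw [not_lt] at hcon
  apply hx
  -- the set of programs is nonempty
  have hlen : Partrec₂ (fun (p : List Bool) (_ : List Bool × ℕ) => Part.some p.length) :=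
    (Computable.list_length.comp Computable.fst : Computable
      (fun a : List Bool × (List Bool × ℕ) => a.1.length)).partrec
  obtain ⟨d, hd⟩ := hU2 _ hlen
  obtain ⟨q, hq, -⟩ := hd (List.replicate (complexity W x) true) (x, complexity V x)
    (complexity W x) (by simp)
  have hne : (List.length '' {p : List Bool | complexity W x ∈ U p (x, complexity V x)}).Nonempty :=
    ⟨_, q, hq, rfl⟩
  obtain ⟨p, hp, hpl⟩ := Nat.sInf_mem hne
  exact ⟨p, by rw [hpl]; exact hcon, hp⟩

end Pool.Agent.Results.MP_7c40ec_lc.UnboundedCofC
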